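import Pool.Agent.Helper16.FAM.Defs
import Pool.Agent.Helper81.FAM.Q1

/-!
# FAM-Q2: the chart of a function field
-/

namespace Pool.Agent.Helper61.FAM

open Polynomial Pool.Agent.Helper16.FAM

universe u

/-- The chart for a Dedekind domain `R` with fraction field `F` and its integral closure `O` in a
finite extension `L` of `F`. -/
theorem chart_dedekind {R F L O : Type u} [CommRing R] [IsDedekindDomain R] [Field F]
    [Algebra R F] [IsFractionRing R F] [Field L] [Algebra F L] [Algebra R L] [IsScalarTower R F L]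
    [FiniteDimensional F L] [CommRing O] [IsDedekindDomain O] [Algebra R O] [Algebra O L]
    [IsScalarTower R O L] [IsFractionRing O L] [IsIntegralClosure O R L] [Module.Finite R O]
    [Module.IsTorsionFree R O] (D : Ideal R →*₀ ℝ)
    (hD : ∀ I : Ideal R, I ≠ ⊥ → 0 < D I ∧ D I ≤ 1) :
    ∃ V : Set (AbsoluteValue L ℝ), (∀ v ∈ V, IsNonarchimedean v) ∧
      (∀ v ∈ V, ∀ a : R, v (algebraMap R L a) ≤ 1) ∧
      (∀ v ∈ V, ∃ p : Ideal R, p.IsPrime ∧ p ≠ ⊥ ∧ D p < 1 ∧
        ∀ a ∈ p, v (algebraMap R L a) < 1) ∧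
      (∀ x : L, x ≠ 0 → (fun v : V => v.val x).HasFiniteMulSupport) ∧
      ∀ (x : L) (a b : R), x ≠ 0 → a ≠ 0 → b ≠ 0 →
        Algebra.norm F x * algebraMap R F b = algebraMap R F a →
        (∏ᶠ v : V, v.val x) * D (Ideal.span {b}) = D (Ideal.span {a}) := by
  have hint : Algebra.IsIntegral R O := IsIntegralClosure.isIntegral_algebra R L
  let DO : Ideal O →*₀ ℝ := D.comp (Ideal.relNorm R)
  have hDO : ∀ I : Ideal O, DO I = D (Ideal.relNorm R I) := fun I => rfl
  have hDO' : ∀ I : Ideal O, I ≠ ⊥ → 0 < DO I ∧ DO I ≤ 1 := by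
    intro I hI
    rw [hDO]
    exact hD _ (fun h => hI (Ideal.relNorm_eq_bot_iff.mp h))
  obtain ⟨V, h1, h2, h3, h4, h5⟩ := Pool.Agent.Helper81.FAM.dedekind_abs (L := L) DO hDO'
  refine ⟨V, h1, ?_, ?_, h4, ?_⟩
  · intro v hv a
    rw [IsScalarTower.algebraMap_apply R O L]
    exact h2 v hv _
  · intro v hv
    obtain ⟨P, hP, hP0, hDP, hPv⟩ := h3 v hv
    refine ⟨P.comap (algebraMap R O), Ideal.IsPrime.comap _,
      Ideal.IsIntegral.comap_ne_bot R hP0, ?_, ?_⟩
    · have : P.LiesOver (P.comap (algebraMap R O)) := ⟨rfl⟩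
      have : (P.comap (algebraMap R O)).IsPrime := Ideal.IsPrime.comap _
      obtain ⟨s, hs⟩ := Ideal.exists_relNorm_eq_pow_of_isPrime P (P.comap (algebraMap R O))
      rw [hDO, hs, map_pow] at hDP
      have h6 := (hD _ (Ideal.IsIntegral.comap_ne_bot R hP0)).2
      refine lt_of_le_of_ne h6 ?_
      intro h7
      rw [h7, one_pow] at hDP
      exact lt_irrefl _ hDP
    · intro a ha
      rw [IsScalarTower.algebraMap_apply R O L]
      exact hPv _ ha
  · intro x a b hx ha hb hab
    obtain ⟨y, s, hs, hxy⟩ := IsFractionRing.div_surjective (A := O) x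
    have hs0 : s ≠ 0 := nonZeroDivisors.ne_zero hs
    have hsL : algebraMap O L s ≠ 0 := by
      rw [Ne, FaithfulSMul.algebraMap_eq_zero_iff]; exact hs0
    have hy0 : y ≠ 0 := by
      rintro rfl
      rw [map_zero, zero_div] at hxy
      exact hx hxy.symm
    have hxs : x * algebraMap O L s = algebraMap O L y := by
      rw [← hxy, div_mul_cancel₀ _ hsL]
    -- product formula
    have h6 : (∏ᶠ v : V, v.val x) * DO (Ideal.span {s}) = DO (Ideal.span {y}) := by
      rw [← h5 s hs0, ← h5 y hy0, ← finprod_mul_distrib (h4 x hx) (h4 _ hsL)]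
      refine finprod_congr fun v => ?_
      rw [← map_mul, hxs]
    -- the norm relation
    have h7 : Algebra.intNorm R O y * b = a * Algebra.intNorm R O s := by
      apply FaithfulSMul.algebraMap_injective R F
      rw [map_mul, map_mul, Algebra.algebraMap_intNorm (L := L),
        Algebra.algebraMap_intNorm (L := L), ← hxs, map_mul, ← hab]
      ring
    rw [hDO, hDO, Ideal.relNorm_singleton, Ideal.relNorm_singleton] at h6
    have h8 : D (Ideal.span {Algebra.intNorm R O y}) * D (Ideal.span {b}) =
        D (Ideal.span {a}) * D (Ideal.span {Algebra.intNorm R O s}) := by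
      rw [← map_mul, ← map_mul, Ideal.span_singleton_mul_span_singleton,
        Ideal.span_singleton_mul_span_singleton, h7]
    have h9 : D (Ideal.span {Algebra.intNorm R O s}) ≠ 0 := by
      rw [← Ideal.relNorm_singleton]
      refine (hD _ ?_).1.ne'
      rw [Ne, Ideal.relNorm_eq_bot_iff, Ideal.span_singleton_eq_bot]
      exact hs0
    apply mul_right_cancel₀ h9
    rw [← h8, ← h6]
    ring

/-- Q2: the chart of a function field given by `t`. -/
theorem chart {k L : Type u} [Field k] [CharZero k] [Field L] [Algebra k L] {t : L}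
    (h : IsFF k L t) (D : Ideal k[X] →*₀ ℝ)
    (hD : ∀ I : Ideal k[X], I ≠ ⊥ → 0 < D I ∧ D I ≤ 1) :
    ∃ V : Set (AbsoluteValue L ℝ), (∀ v ∈ V, IsNonarchimedean v) ∧
      (∀ v ∈ V, ∀ a : k, a ≠ 0 → v (algebraMap k L a) = 1) ∧ (∀ v ∈ V, v t ≤ 1) ∧
      (∀ v ∈ V, ∃ f : k[X], Irreducible f ∧ D (Ideal.span {f}) < 1 ∧ v (aeval t f) < 1) ∧
      (∀ x : L, x ≠ 0 → (fun v : V => v.val x).HasFiniteMulSupport) ∧
      ∀ (x : L) (a b : k[X]), x ≠ 0 → a ≠ 0 → b ≠ 0 →
        algebraMap (IntermediateField.adjoin k {t}) L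
          (Algebra.norm (IntermediateField.adjoin k {t}) x) * aeval t b = aeval t a →
        (∏ᶠ v : V, v.val x) * D (Ideal.span {b}) = D (Ideal.span {a}) := by
  have htr := h.tr
  have hfin := h.fin
  let F := IntermediateField.adjoin k {t}
  let τ : F := ⟨t, IntermediateField.mem_adjoin_simple_self k t⟩
  let iF : Algebra k[X] F := (aeval τ : k[X] →ₐ[k] F).toRingHom.toAlgebra
  let iL : Algebra k[X] L := ((algebraMap F L).comp (aeval τ : k[X] →ₐ[k] F).toRingHom).toAlgebra
  have hmF : ∀ f : k[X], algebraMap k[X] F f = aeval τ f := fun f => rfl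
  have hmL : ∀ f : k[X], algebraMap k[X] L f = aeval t f := by
    intro f
    change algebraMap F L (aeval τ f) = aeval t f
    rw [← Polynomial.aeval_algebraMap_apply]
    rfl
  have tower : IsScalarTower k[X] F L := IsScalarTower.of_algebraMap_eq fun f => rfl
  have hinjL : Function.Injective (algebraMap k[X] L) := by
    intro f g hfg
    rw [hmL, hmL] at hfg
    exact (transcendental_iff_injective.mp htr) hfg
  have hinjF : Function.Injective (algebraMap k[X] F) := by
    intro f g hfg
    apply hinjL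
    rw [IsScalarTower.algebraMap_apply k[X] F L, IsScalarTower.algebraMap_apply k[X] F L, hfg]
  have faithF : FaithfulSMul k[X] F := (faithfulSMul_iff_algebraMap_injective _ _).mpr hinjF
  have faithL : FaithfulSMul k[X] L := (faithfulSMul_iff_algebraMap_injective _ _).mpr hinjL
  have frac : IsFractionRing k[X] F := by
    apply IsFractionRing.of_field
    rintro ⟨z, hz⟩
    obtain ⟨r, s, hrs⟩ := (IntermediateField.mem_adjoin_simple_iff k z).mp hz
    refine ⟨r, s, ?_⟩
    apply (algebraMap F L).injective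
    rw [map_div₀, ← IsScalarTower.algebraMap_apply, ← IsScalarTower.algebraMap_apply, hmL, hmL]
    exact hrs
  have charF : CharZero F := inferInstance
  have sep : Algebra.IsSeparable F L := inferInstance
  let O := integralClosure k[X] L
  have dedO : IsDedekindDomain O := integralClosure.isDedekindDomain k[X] F L
  have fracO : IsFractionRing O L := integralClosure.isFractionRing_of_finite_extension F L
  have finO : Module.Finite k[X] O := IsIntegralClosure.finite k[X] F L O
  have tfL : Module.IsTorsionFree k[X] L := inferInstance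
  have tfO : Module.IsTorsionFree k[X] O := inferInstance
  obtain ⟨V, h1, h2, h3, h4, h5⟩ := chart_dedekind (F := F) (L := L) (O := O) D hD
  refine ⟨V, h1, ?_, ?_, ?_, h4, ?_⟩
  · intro v hv a ha
    have e1 := h2 v hv (C a)
    have e2 := h2 v hv (C a⁻¹)
    rw [hmL, aeval_C] at e1 e2
    have e3 : v (algebraMap k L a) * v (algebraMap k L a⁻¹) = 1 := by
      rw [← map_mul, ← map_mul, mul_inv_cancel₀ ha, map_one, map_one]
    have e4 := v.nonneg (algebraMap k L a)
    have e5 := v.nonneg (algebraMap k L a⁻¹)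
    nlinarith
  · intro v hv
    have e1 := h2 v hv X
    rwa [hmL, aeval_X] at e1
  · intro v hv
    obtain ⟨p, hp, hp0, hDp, hpv⟩ := h3 v hv
    obtain ⟨f, hf⟩ := IsPrincipalIdealRing.principal p
    have hpf : p = Ideal.span {f} := hf
    have hf0 : f ≠ 0 := by
      rintro rfl
      apply hp0
      rw [hpf]
      simp
    refine ⟨f, ?_, ?_, ?_⟩
    · rw [hpf, Ideal.span_singleton_prime hf0] at hp
      exact hp.irreducible
    · rw [← hpf]; exact hDp
    · rw [← hmL]
      apply hpv
      rw [hpf]
      exact Ideal.mem_span_singleton_self f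
  · intro x a b hx ha hb hab
    apply h5 x a b hx ha hb
    apply (algebraMap F L).injective
    rw [map_mul, ← IsScalarTower.algebraMap_apply, ← IsScalarTower.algebraMap_apply, hmL, hmL]
    exact hab

end Pool.Agent.Helper61.FAM
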